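import Pool.Agent.H.MP_8220a0_an.D

open Finset Polynomial Real MeasureTheory Pool.Agent.H.MP_8220a0_an

namespace Pool.Agent.H.MP_c62d6e_an

lemma quadG {W : ℝ → ℝ} (ev : ∀ θ, W (-θ) = W θ) (ii : IntervalIntegrable W volume (-π) π)
    {n N : ℕ} (u : Multiset ℝ) (h1 : u.card = N / 2) (h2 : ∀ x ∈ u, |x| ≤ 1) (t0 l : ℝ)
    (ht : ∀ j : ℕ, sin (j * t0) = 0) (h3 : ∀ q : ℝ[X], q.natDegree ≤ n →
      ∫ t in (-π)..π, q.eval (cos t) * W t =
        l * (2 * (u.map fun x => q.eval x).sum + (N % 2 : ℕ) * q.eval (cos t0))) :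
    Quad W n N := by
  obtain ⟨θ, m, e⟩ := srt (N := N) (u.map arccos + u.map (fun x => -arccos x) +
    Multiset.replicate (N % 2) t0) (by simp [h1]; omega)
  refine ⟨θ, m, l, fun p hp => ?_⟩
  suffices Continuous p ∧ ∫ t in (-π)..π, p t * W t = l * ∑ i, p (θ i) from this.2
  induction hp using Submodule.span_induction with
  | mem f hf =>
    obtain ⟨j, hj, rfl | rfl⟩ := hf
    · refine ⟨by fun_prop, ?_⟩
      have b := h3 (Chebyshev.T ℝ j) (by rw [Chebyshev.natDegree_T]; simpa using hj)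
      have c : (u.map fun x => (Chebyshev.T ℝ j).eval x) = u.map fun x => cos (j * arccos x) :=
        Multiset.map_congr rfl fun x hx => by
          have := abs_le.1 (h2 x hx)
          conv_lhs => rw [← cos_arccos this.1 this.2, Chebyshev.T_real_cos]
          simp
      simp only [Chebyshev.T_real_cos, Int.cast_natCast] at b
      rw [b, e (fun θ => cos (j * θ)), c]
      simp only [Multiset.map_add, Multiset.sum_add, Multiset.map_map, Function.comp_def, mul_neg,
        cos_neg, Multiset.map_replicate, Multiset.sum_replicate, nsmul_eq_mul, two_mul]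
    · refine ⟨by fun_prop, ?_⟩
      rw [e (fun θ => sin (j * θ))]
      have a := intervalIntegral.integral_comp_neg (a := -π) (b := π)
        fun t => sin (j * t) * W t
      simp only [mul_neg, sin_neg, ev, neg_mul, intervalIntegral.integral_neg, neg_neg] at a
      simp [Multiset.sum_map_neg, ht]
      linarith
  | zero => exact ⟨continuous_const, by simp⟩
  | add x y _ _ hx hy =>
    refine ⟨hx.1.add hy.1, ?_⟩
    simp only [Pi.add_apply, add_mul, sum_add_distrib, mul_add]
    rw [intervalIntegral.integral_add (ii.continuousOn_mul hx.1.continuousOn)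
      (ii.continuousOn_mul hy.1.continuousOn), hx.2, hy.2]
  | smul c x _ hx =>
    refine ⟨hx.1.const_smul c, ?_⟩
    simp only [Pi.smul_apply, smul_eq_mul, mul_assoc, ← mul_sum]
    rw [intervalIntegral.integral_const_mul, hx.2]; ring

noncomputable def W0 : ℝ → ℝ := Wa (1 / 3)

lemma per0 : Function.Periodic W0 (2 * π) := fun θ => by
  simp only [W0, Wa, show (θ + 2 * π) / 2 = θ / 2 + π by ring, cos_add_pi, sin_add_pi, abs_neg, neg_sq]

lemma ev0 (θ : ℝ) : W0 (-θ) = W0 θ := by simp only [W0, Wa, neg_div, cos_neg, sin_neg, neg_sq]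

lemma meas0 : Measurable W0 := by unfold W0 Wa; fun_prop

lemma ii0 (a b : ℝ) : IntervalIntegrable W0 volume a b := by
  refine per0.intervalIntegrable (t := -π) (by positivity) ?_ a b
  rw [show -π + 2 * π = π by ring, intervalIntegrable_iff_integrableOn_Ioc_of_le (by linarith [pi_pos])]
  have := (cov (a := 1 / 3) (F := fun _ => 1) (by norm_num) (by norm_num) continuous_const).1
  simp only [one_mul] at this
  exact this

lemma int0 (q : ℝ[X]) : ∫ t in (-π)..π, q.eval (cos t) * W0 t = π * av (1 / 3) q := by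
  rw [intervalIntegral.integral_of_le (by linarith [pi_pos])]
  exact cov_av (by norm_num) (by norm_num) q

lemma int1 (q : ℝ[X]) :
    ∫ t in (-π)..π, q.eval (cos t) * W0 (t + π) = π * av (1 / 3) (q.comp (-X)) := by
  have p : Function.Periodic (fun t => (q.comp (-X)).eval (cos t) * W0 t) (2 * π) := fun t => by
    simp only [cos_add_two_pi, per0 t]
  have a := intervalIntegral.integral_comp_add_right (a := -π) (b := π)
    (fun t => (q.comp (-X)).eval (cos t) * W0 t) π
  have b := p.intervalIntegral_add_eq (-π + π) (-π)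
  rw [show -π + π + 2 * π = π + π by ring, show -π + 2 * π = π by ring] at b
  rw [← int0, ← b, ← a]
  simp [eval_comp]

lemma nod {n N : ℕ} (n1 : 1 ≤ n) (h : 30 * n ^ 2 ≤ N) : ∃ u : Multiset ℝ, u.card = N / 2 ∧
    (∀ x ∈ u, |x| ≤ 1) ∧ ∀ q : ℝ[X], q.natDegree ≤ n → π * av (1 / 3) q =
      π / N * (2 * (u.map fun x => q.eval x).sum + (N % 2 : ℕ) * q.eval 1) := by
  have r1 : ((N % 2 : ℕ) : ℝ) ≤ 1 := by exact_mod_cast (by omega : N % 2 ≤ 1)
  have r2 : (N : ℝ) = 2 * (N / 2 : ℕ) + (N % 2 : ℕ) := by exact_mod_cast (Nat.div_add_mod N 2).symm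
  obtain ⟨u, u1, u2, u3⟩ := compo (a := 1 / 3) (by norm_num) (by norm_num) (n := n) (L := 2 * n)
    (M := N / 2) ((N / 2 : ℝ) • av (1 / 3) - ((N % 2 : ℕ) / 2 : ℝ) • leval 1)
    (by simp only [LinearMap.sub_apply, LinearMap.smul_apply, av_one, leval_apply, eval_one,
          smul_eq_mul]; linarith)
    (fun m a _ => by
      have := Tt_le (a := 1 / 3) (by norm_num) m (x := 1) (by norm_num) le_rfl
      simp only [LinearMap.sub_apply, LinearMap.smul_apply, av_T (a := 1 / 3) (by norm_num) a,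
        leval_apply, smul_eq_mul, mul_zero, zero_sub, abs_neg, abs_mul]
      rw [abs_of_nonneg (by positivity)]
      push_cast
      nlinarith [mul_le_mul r1 this (abs_nonneg _) zero_le_one, n.cast_nonneg (α := ℝ)])
    (by rw [Nat.le_div_iff_mul_le two_pos]; nlinarith)
  refine ⟨u, u1, u2, fun q hq => ?_⟩
  have : (0 : ℝ) < N := by exact_mod_cast (by nlinarith : 0 < N)
  rw [u3 q hq]
  simp only [LinearMap.sub_apply, LinearMap.smul_apply, leval_apply, smul_eq_mul]
  field_simp; ring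

lemma quad1 (c : ℝ) {n N : ℕ} (n1 : 1 ≤ n) (h : 30 * n ^ 2 ≤ N) : Quad (fun t => c * W0 t) n N := by
  obtain ⟨u, u1, u2, u3⟩ := nod n1 h
  refine quadG (fun θ => by rw [ev0]) ((ii0 _ _).const_mul c) u u1 u2 0 (c * (π / N)) (by simp)
    fun q hq => ?_
  simp only [mul_left_comm _ c]
  rw [intervalIntegral.integral_const_mul, int0, u3 q hq, cos_zero, mul_assoc]

lemma ev1 (θ : ℝ) : W0 (-θ + π) = W0 (θ + π) := by
  rw [← ev0, ← per0]; congr 1; ring

lemma ii1 : IntervalIntegrable (fun t => W0 (t + π)) volume (-π) π := by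
  simpa using (ii0 (-π + π) (π + π)).comp_add_right π

lemma quad2 (c : ℝ) {n N : ℕ} (n1 : 1 ≤ n) (h : 30 * n ^ 2 ≤ N) :
    Quad (fun t => c * W0 (t + π)) n N := by
  obtain ⟨u, u1, u2, u3⟩ := nod n1 h
  refine quadG (fun θ => by rw [ev1]) (ii1.const_mul c) (u.map Neg.neg) (by simpa using u1)
    (by simpa using u2) π (c * (π / N)) (by simp) fun q hq => ?_
  simp only [mul_left_comm _ c]
  rw [intervalIntegral.integral_const_mul, int1, u3 _ (natDegree_comp_le.trans (by simpa using hq)),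
    cos_pi, mul_assoc]
  simp [eval_comp]

noncomputable def P : ℕ → ℝ[X]
  | 0 => C (1 / 2) * (1 - X)
  | r + 1 => C 3 * P r ^ 2 - C 2 * P r ^ 3

lemma P_deg (r : ℕ) : (P r).natDegree ≤ 3 ^ r := by
  induction r with
  | zero => rw [P, pow_zero]; compute_degree
  | succ r ih =>
    rw [P]
    refine (natDegree_sub_le _ _).trans (max_le ?_ ?_) <;>
      refine (natDegree_C_mul_le _ _).trans (natDegree_pow_le.trans ?_) <;> omega

lemma P_mem (r : ℕ) {x : ℝ} (h : |x| ≤ 1) : 0 ≤ (P r).eval x ∧ (P r).eval x ≤ 1 := by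
  rw [abs_le] at h
  induction r with
  | zero => simp [P]; constructor <;> linarith
  | succ r ih =>
    simp only [P, eval_sub, eval_mul, eval_C, eval_pow]
    generalize (P r).eval x = y at ih
    constructor <;> nlinarith [sq_nonneg y, sq_nonneg (1 - y), mul_nonneg ih.1 (sq_nonneg (1 - y)),
      mul_nonneg (sq_nonneg y) (sub_nonneg.2 ih.2)]

lemma P_neg (r : ℕ) : (P r).comp (-X) = 1 - P r := by
  induction r with
  | zero =>
    simp only [P, mul_comp, C_comp, sub_comp, one_comp, X_comp]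
    have : (C (1 / 2) : ℝ[X]) * 2 = 1 := by rw [← map_ofNat C 2, ← C_mul]; norm_num
    linear_combination this
  | succ r ih =>
    simp only [P, mul_comp, C_comp, sub_comp, pow_comp, ih, map_ofNat]; simp; ring

lemma P_le (r : ℕ) {x : ℝ} (h1 : 1 - 2 * (1 / 3) ^ 2 ≤ x) (h2 : x ≤ 1) :
    3 * (P r).eval x ≤ (1 / 2) ^ 2 ^ r := by
  induction r with
  | zero => simp [P]; linarith
  | succ r ih =>
    have := (P_mem r (x := x) (abs_le.2 ⟨by linarith, h2⟩)).1
    simp only [P, eval_sub, eval_mul, eval_C, eval_pow, pow_succ 2 r, pow_mul]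
    nlinarith [pow_nonneg this 3, pow_le_pow_left₀ (by positivity) ih 2]

noncomputable def WW (t : ℝ) : ℝ := (2 - √2) * W0 t + (√2 - 1) * W0 (t + π)

lemma intW (q : ℝ[X]) : ∫ t in (-π)..π, q.eval (cos t) * WW t =
    π * ((2 - √2) * av (1 / 3) q + (√2 - 1) * av (1 / 3) (q.comp (-X))) := by
  simp only [WW, mul_add, mul_left_comm _ (2 - √2), mul_left_comm _ (√2 - 1)]
  rw [intervalIntegral.integral_add (((ii0 _ _).continuousOn_mul (by fun_prop)).const_mul _)
    ((ii1.continuousOn_mul (by fun_prop)).const_mul _), intervalIntegral.integral_const_mul,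
    intervalIntegral.integral_const_mul, int0, int1]

lemma s1 : 1 < √2 := lt_sqrt_of_sq_lt (by norm_num)

lemma s2 : √2 < 3 / 2 := (sqrt_lt' (by norm_num)).2 (by norm_num)

lemma dio {N k : ℕ} (N0 : 0 < N) : 1 ≤ 4 * N * |N * √2 - k| := by
  by_contra c
  have Nr : (1 : ℝ) ≤ N := by exact_mod_cast N0
  have s : √2 * √2 = 2 := mul_self_sqrt (by norm_num)
  have h0 : (2 * N ^ 2 - k ^ 2 : ℤ) ≠ 0 := by
    intro e
    have : ((2 * N ^ 2 - k ^ 2 : ℤ) : ℝ) = 0 := by exact_mod_cast e
    push_cast at this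
    have k0 : (0 : ℝ) ≤ k := by positivity
    have : (N * √2 - k) * (N * √2 + k) = 0 := by linear_combination this + N ^ 2 * s
    rcases mul_eq_zero.1 this with e | e
    · exact (irrational_sqrt_two.natCast_mul N0.ne').ne_nat k (by linarith)
    · nlinarith [s1]
  have h1 : (1 : ℝ) ≤ |((2 * N ^ 2 - k ^ 2 : ℤ) : ℝ)| := by exact_mod_cast Int.one_le_abs h0
  rw [show ((2 * N ^ 2 - k ^ 2 : ℤ) : ℝ) = (N * √2 - k) * (N * √2 + k) by
    push_cast; linear_combination -(N : ℝ) ^ 2 * s, abs_mul,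
    abs_of_nonneg (a := N * √2 + k) (by positivity)] at h1
  have h2 := neg_abs_le (N * √2 - k)
  have h3 := abs_nonneg (N * √2 - k)
  have h4 : |N * √2 - k| ≤ 1 / 4 := by nlinarith
  have : N * √2 + k ≤ 4 * N := by nlinarith [s2]
  nlinarith

lemma lower {r N : ℕ} (h : Quad WW (2 * 3 ^ r) N) : 2 ^ 2 ^ r ≤ 4 * N ^ 2 := by
  obtain ⟨θ, -, l, h⟩ := h
  have H := fun (q : ℝ[X]) hq => (intW q).symm.trans (h _ (poly_mem hq))
  have h0 := H 1 (by simp)
  have h1 := H (P r) ((P_deg r).trans (by omega))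
  have h2 := H (P r * (1 - P r)) (natDegree_mul_le.trans (by
    have := P_deg r; have := natDegree_sub_le 1 (P r); simp at this; omega))
  set ε : ℝ := (1 / 2) ^ 2 ^ r / 3 with hε
  have a1 : |av (1 / 3) (P r)| ≤ ε := av_le _ _ fun x a b => by
    rw [abs_of_nonneg (P_mem r (abs_le.2 ⟨by linarith, b⟩)).1]; linarith [P_le r a b]
  have a2 : |av (1 / 3) (P r * (1 - P r))| ≤ ε := av_le _ _ fun x a b => by
    have := P_mem r (abs_le.2 ⟨by linarith, b⟩)
    simp only [eval_mul, eval_sub, eval_one]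
    rw [abs_of_nonneg (by nlinarith)]; nlinarith [P_le r a b]
  simp only [one_comp, av_one, eval_one, sum_const, card_univ, Fintype.card_fin, nsmul_eq_mul] at h0
  rw [P_neg, map_sub, av_one] at h1
  simp only [mul_comp, sub_comp, one_comp, P_neg, sub_sub_cancel, mul_comm (1 - P r), eval_mul,
    eval_sub, eval_one] at h2
  have p := pi_pos
  have N0 : 0 < N := Nat.pos_of_ne_zero fun c => by rw [c] at h0; simp at h0; linarith
  have Nr : (0 : ℝ) < N := by positivity
  have l0 : l = π / N := by rw [eq_div_iff Nr.ne']; linarith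
  let k : Fin N → ℕ := fun i => if (P r).eval (cos (θ i)) ≤ 1 / 2 then 0 else 1
  have b : |∑ i, ((P r).eval (cos (θ i)) - k i)| ≤
      ∑ i, 2 * ((P r).eval (cos (θ i)) * (1 - (P r).eval (cos (θ i)))) :=
    (abs_sum_le_sum_abs _ _).trans (sum_le_sum fun i _ => by
      have := P_mem r (abs_cos_le_one (θ i))
      simp only [k]
      split_ifs <;> rw [abs_le] <;> constructor <;> push_cast <;> nlinarith)
  rw [sum_sub_distrib, ← mul_sum, ← Nat.cast_sum] at b
  have e1 : ∑ i, (P r).eval (cos (θ i)) =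
      N * ((2 - √2) * av (1 / 3) (P r) + (√2 - 1) * (1 - av (1 / 3) (P r))) := by
    rw [l0] at h1; field_simp at h1; linarith
  have e2 : ∑ i, (P r).eval (cos (θ i)) * (1 - (P r).eval (cos (θ i))) =
      N * av (1 / 3) (P r * (1 - P r)) := by
    rw [l0] at h2; field_simp at h2; linarith
  rw [e1, e2] at b
  have d := dio (k := ∑ i, k i + N) N0
  have c : |N * √2 - (∑ i, k i + N : ℕ)| ≤ N * (3 * ε) := by
    have := s1; have := s2
    rw [abs_le] at *
    push_cast at *
    have t1 := mul_le_mul_of_nonneg_left a2.2 Nr.le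
    have t2 : -ε ≤ (3 - 2 * √2) * av (1 / 3) (P r) ∧ (3 - 2 * √2) * av (1 / 3) (P r) ≤ ε := by
      constructor <;> nlinarith
    have t3 := mul_le_mul_of_nonneg_left t2.1 Nr.le
    have t4 := mul_le_mul_of_nonneg_left t2.2 Nr.le
    constructor <;> nlinarith
  have f : (1 : ℝ) ≤ 4 * N ^ 2 * (1 / 2) ^ 2 ^ r := by nlinarith
  rw [one_div_pow, mul_one_div, le_div_iff₀ (by positivity), one_mul] at f
  exact_mod_cast f

lemma main (M : ℕ) : ∃ n ≥ 1, ∀ N, Quad WW n N → M * (30 * n ^ 2) < N := by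
  have e : ∀ s, 8 * (s + 6) ≤ 2 ^ (s + 6) := fun s => by
    induction s with
    | zero => norm_num
    | succ s ih => rw [show s + 1 + 6 = s + 6 + 1 by ring, pow_succ]; omega
  have e1 := e (57600 * M ^ 2)
  set r := 57600 * M ^ 2 + 6 with hr
  refine ⟨2 * 3 ^ r, by have := Nat.one_le_pow r 3 (by norm_num); omega, fun N h => ?_⟩
  have h1 := lower h
  by_contra c
  have h2 : 57600 * M ^ 2 < 2 ^ r := lt_of_le_of_lt (by omega) r.lt_two_pow_self
  have h3 : 81 ^ r ≤ 128 ^ r := Nat.pow_le_pow_left (by norm_num) r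
  have : 2 ^ 2 ^ r < 2 ^ 2 ^ r :=
    calc _ ≤ 4 * (M * (30 * (2 * 3 ^ r) ^ 2)) ^ 2 := h1.trans (by gcongr; omega)
      _ = 57600 * M ^ 2 * 81 ^ r := by
          rw [show 81 ^ r = (3 ^ r) ^ 4 by rw [← pow_mul, mul_comm, pow_mul]; norm_num]; ring
      _ < 2 ^ r * 128 ^ r := by
          exact Nat.mul_lt_mul_of_lt_of_le h2 h3 (by positivity)
      _ = 2 ^ (8 * r) := by rw [← mul_pow, pow_mul]; norm_num
      _ ≤ _ := Nat.pow_le_pow_right two_pos e1
  exact lt_irrefl _ this

lemma W0_zero {t : ℝ} (h : 1 / 9 < sin (t / 2) ^ 2) : W0 t = 0 := by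
  rw [W0, Wa, sqrt_eq_zero'.2 (by linarith)]; simp

end Pool.Agent.H.MP_c62d6e_an
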